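import Pool.Agent.MP_ee8c61_ag.M3RESID.Cht
import Pool.Agent.MP_ee8c61_ag.N3.Defs

/-!
The charts of a model over a base as coordinates.
-/

namespace Pool.Agent.MP_ee8c61_ag.N3

open M3 M3RESID Finset
open M3B1 (pd)

set_option linter.unusedSectionVars false

variable [Base]

noncomputable section

variable {N : ℕ} {f : Po N} {M : Mod N}

theorem R_eq (h : M.OK f) (l : Fin N) : M.S.R l = pd N l :=
  M3B1.der_ext fun j => by
    have := M.S.R_r l j
    rw [h.r] at this
    exact this.trans (M3B1.pd_X l j).symm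

/-- The coordinates of a chart. -/
def cht (_ : M.OK f) (b : M.ι) : Co (KK N) N where
  z := M.S.z b
  D := M.S.D b
  ne i h0 := by simpa [h0] using M.S.D_z b i i
  dual := M.S.D_z b
  span v hv := by
    have h1 : (Matrix.of fun j l => pd N l (M.S.z b j)) *
        (Matrix.of fun l i => M.S.D b i (x0 N l)) = 1 := by
      ext j i
      rw [Matrix.mul_apply, Matrix.one_apply]
      simp only [Matrix.of_apply, mul_comm (pd N _ _), x0]
      rw [← M3B1.chain, M.S.D_z]
      simp only [eq_comm]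
    have h2 : (Matrix.of fun j l => pd N l (M.S.z b j)).mulVec (fun l => v (x0 N l)) = 0 :=
      funext fun j => by
        simp only [Matrix.mulVec, dotProduct, Matrix.of_apply, mul_comm (pd N _ _), x0]
        rw [← M3B1.chain, hv]
        rfl
    have h3 := congrArg (Matrix.of fun l i => M.S.D b i (x0 N l)).mulVec h2
    rw [Matrix.mulVec_mulVec, mul_eq_one_comm.1 h1, Matrix.one_mulVec, Matrix.mulVec_zero] at h3
    exact (co N).span v (congrFun h3)

/-- A vector on the divisors as a vector on the coordinates of a chart. -/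
def lf {R : Type} [AddCommMonoid R] (M : Mod N) (b : M.ι) (c : M.J → R) (i : Fin N) : R :=
  ∑ j, if M.S.lab b j = some i then c j else 0

open Classical in
/-- The coordinates that define divisors. -/
def ls (M : Mod N) (b : M.ι) : Finset (Fin N) := univ.filter fun i => ∃ j, M.S.lab b j = some i

theorem mem_ls {b : M.ι} {i : Fin N} : i ∈ ls M b ↔ ∃ j, M.S.lab b j = some i := by simp [ls]

theorem lf_some {R : Type} [AddCommMonoid R] {b : M.ι} {j : M.J} {i : Fin N}
    (h : M.S.lab b j = some i) (c : M.J → R) : lf M b c i = c j := by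
  rw [lf, sum_eq_single j, if_pos h]
  · exact fun j' _ h' => if_neg fun h2 => h' (M.S.lab_inj b _ _ i h2 h)
  · simp

theorem lf_none {R : Type} [AddCommMonoid R] {b : M.ι} {i : Fin N} (h : i ∉ ls M b)
    (c : M.J → R) : lf M b c i = 0 :=
  sum_eq_zero fun j _ => if_neg fun h2 => h (mem_ls.2 ⟨j, h2⟩)

variable (h : M.OK f) (b : M.ι)

theorem cht_mon (c : M.J → ℤ) : M.mon b c = (cht h b).mon (lf M b c) := by
  have key : ∀ s : Finset M.J, ((∏ j ∈ s, M.S.η b j ^ c j : (KK N)ˣ) : KK N) =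
      (cht h b).mon fun i => ∑ j ∈ s, if M.S.lab b j = some i then c j else 0 := fun s => by
    induction s using Finset.induction_on with
    | empty => simp [Co.mon]
    | insert j s hj ih =>
      simp only [prod_insert hj, sum_insert hj, Units.val_mul, ih, Units.val_zpow_eq_zpow_val]
      rw [← Pi.add_def, Co.mon_add]
      congr 1
      rcases hl : M.S.lab b j with _ | i
      · rw [M.S.η_none b j hl]
        simp [Co.mon]
      · rw [M.S.η_some b j i hl]
        refine ((cht h b).mon_single i (c j)).symm.trans (congrArg _ (funext fun l => ?_))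
        simp [Pi.single_apply, eq_comm]
  exact key univ

theorem cht_st : (cht h b).St (M.S.A b) := ⟨M.S.z_mem b, M.S.D_mem b⟩

theorem cht_f : ∃ U ∈ M.S.A b, U⁻¹ ∈ M.S.A b ∧ U ≠ 0 ∧
    ip N f = U * (cht h b).mon (lf M b M.aa) := by
  obtain ⟨U, hU, e⟩ := h.ord b
  exact ⟨U, hU.1, by simpa using hU.2, U.ne_zero, by rw [e, cht_mon h]⟩

theorem cht_jac : ∃ U ∈ M.S.A b, U⁻¹ ∈ M.S.A b ∧ U ≠ 0 ∧
    (co N).jac (cht h b) = U * (cht h b).mon (lf M b M.kk) := by
  obtain ⟨U, hU, e⟩ := h.det b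
  rw [h.r] at e
  exact ⟨U, hU.1, by simpa using hU.2, U.ne_zero, by rw [← cht_mon h, ← e]; rfl⟩

include h in
theorem f_ne : ip N f ≠ 0 := by
  obtain ⟨b, -⟩ := h.cov ⊤ fun _ => trivial
  obtain ⟨U, -, -, h0, e⟩ := cht_f h b
  exact e ▸ mul_ne_zero h0 (Co.mon_ne _ _)

/-- The exponents of the coordinates of a chart. -/
def cex (M : Mod N) (b : M.ι) (la : ℚ) (i : Fin N) : ℚ :=
  1 + lf M b M.kk i - la * lf M b M.aa i

theorem cex_some {b : M.ι} {j : M.J} {i : Fin N} (h : M.S.lab b j = some i) (la : ℚ) :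
    cex M b la i = M.ex la j := by
  rw [cex, lf_some h, lf_some h, Mod.ex, Mod.kk, Mod.aa]
  push_cast
  ring

theorem cex_none {b : M.ι} {i : Fin N} (h : i ∉ ls M b) (la : ℚ) : cex M b la i = 1 := by
  simp [cex, lf_none h]

theorem cht_ad (la : ℚ) : (cht h b).Ad (M.S.A b) (dvf f la) fun i => cex M b la i := by
  obtain ⟨U, h1, h2, h3, e⟩ := cht_f h b
  obtain ⟨U', h1', h2', h3', e'⟩ := cht_jac h b
  have := ((Co.ad_dv (cht h b) (M.S.A b)).tw (cht_st h b) h1' h2' h3' e' 1).tw (cht_st h b)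
    h1 h2 h3 e (-(la : ℂ))
  rw [← Co.dv_jac] at this
  intro i
  refine mem_of_eq (this i) ?_
  simp only [cex, dvf, Pi.one_apply, one_mul]
  push_cast
  ring_nf

theorem cht_dlog (i : Fin N) :
    ((cht h b).th i (ip N f) / ip N f - algebraMap ℂ _ ((lf M b M.aa i : ℤ) : ℂ)) /
      (cht h b).z i ∈ M.S.A b := by
  obtain ⟨U, h1, h2, h3, e⟩ := cht_f h b
  exact Co.th_dlog (cht_st h b) h1 h2 h3 e i

theorem cht_dlog' (i : Fin N) :
    (if i ∈ ls M b then (cht h b).z i else 1) * (cht h b).D i (ip N f) / ip N f ∈ M.S.A b := by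
  obtain ⟨U, h1, h2, h3, e⟩ := cht_f h b
  exact Co.D_dlog (cht_st h b) h1 h2 h3 e (fun i hi => lf_none hi _) i

include h in
theorem cht_frac (g : KK N) : ∃ s ∈ M.S.A b, s ≠ 0 ∧ s * g ∈ M.S.A b := by
  obtain ⟨p, q, hq, e⟩ := M3B1.frac g
  exact ⟨_, h.pol b (pp N q), M3B1.ip_ne hq, e ▸ h.pol b (pp N p)⟩

variable {b}

theorem lab_of {j : M.J} (hj : (M.η b j)⁻¹ ∉ M.S.A b) : ∃ i, M.S.lab b j = some i := by
  rcases hl : M.S.lab b j with _ | i
  · exact absurd (by simp [Mod.η, M.S.η_none b j hl]) hj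
  · exact ⟨i, rfl⟩

theorem cht_dat {j : M.J} {i : Fin N} (hl : M.S.lab b j = some i)
    (hj : (M.η b j)⁻¹ ∉ M.S.A b) : (cht h b).Dat (M.S.A b) (M.v j) i := by
  obtain ⟨h1, h2, h3⟩ := h.dv b j hj
  have e : M.η b j = (cht h b).z i := M.S.η_some b j i hl
  rw [e] at h2 h3
  exact Co.dat_of (cht_st h b) h2 (cht_frac h b) h1 fun g hg h4 => by
    rw [div_eq_mul_inv]
    exact h3 g hg h4

include h in
/-- The exponent of a divisor of a model. -/
theorem exp_v (la : ℚ) (j : M.J) : Exp (dvf f la) (M.v j) (M.ex la j) := by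
  obtain ⟨b, hb⟩ := h.ne j
  obtain ⟨i, hi⟩ := lab_of hb
  have := (cht_dat h hi hb).exp (cht_ad h b la)
  rwa [cex_some hi] at this

include h in
theorem chart_fg (b : M.ι) : (M.S.A b).FG := by
  have h1 : (M.S.zh b).toRingHom.FiniteType :=
    RingHom.FiniteType.of_finitePresentation
      (RingHom.Etale.iff_flat_and_formallyUnramified.1 (h.et b)).2.2
  have h2 := RingHom.FiniteType.comp h1 (RingHom.finiteType_algebraMap.2
    (inferInstance : Algebra.FiniteType ℂ (MvPolynomial (Fin N) ℂ)))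
  have h3 : (M.S.zh b).toRingHom.comp (algebraMap ℂ _) = algebraMap ℂ _ :=
    (M.S.zh b).comp_algebraMap
  rw [h3] at h2
  exact (Subalgebra.fg_iff_finiteType _).2 (RingHom.finiteType_algebraMap.1 h2)

include h in
/-- Derivations along a homomorphism of a chart ring are determined by the coordinates. -/
theorem chart_der {k : Type} [Field k] [Algebra ℂ k] (φ : M.S.A b →ₐ[ℂ] k) (w : VF k)
    (hw : ∀ i, w (φ ⟨M.S.z b i, M.S.z_mem b i⟩) = 0) (g : M.S.A b) : w (φ g) = 0 := by
  have := H59.rowDu ℂ (KK N) M.ι M.J N M.S b (h.et b) k φ (w.toLinearMap ∘ₗ φ.toLinearMap)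
    (fun g g' => by simp [Derivation.leibniz]) g
  simpa [hw] using this

end

end Pool.Agent.MP_ee8c61_ag.N3
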