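import Pool.Agent.MP_ee8c61_ag.M3RESID.Eqn
import Pool.Agent.MP_ee8c61_ag.N3RESID.Cht

/-!
The functional equation over a base; poles of the primitive.
-/

namespace Pool.Agent.MP_ee8c61_ag.N3

open M3 M3RESID Finset MvPolynomial
open M3B1 (pd)
open H59 (PX dpol dpol_C coeff_dpol)

set_option linter.unusedSectionVars false

variable [Base]

variable {N : ℕ} {f : Po N} {M : Mod N} {b : Polynomial ℂ} {β : Fin N → PX N (KK N)}
  {Q : PX N (KK N)} {la : ℚ}

theorem sum_x0 (c : Fin N → KK N) (l : Fin N) : (∑ l, c l • pd N l) (x0 N l) = c l := sum_xx c l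

theorem co_mem (h : M.OK f) (a : M.ι) (l : Fin N) : (co N).z l ∈ M.S.A a :=
  h.pol a (pp N (X l))

theorem dvf_sum (c : Fin N → KK N) : (dvf f la).δ (∑ l, c l • pd N l) =
    ∑ l, (pd N l (c l) + algebraMap ℂ _ (-(la : ℂ)) * ((ip N f)⁻¹ * pd N l (ip N f)) * c l) := by
  rw [dvf, Dv.tw_δ, Co.dv_δ, sum_add_distrib, sum_ap, sum_div, mul_sum]
  congr 1
  · exact sum_congr rfl fun l _ => congrArg _ (sum_xx c l)
  · refine sum_congr rfl fun l _ => ?_
    rw [Derivation.smul_apply, smul_eq_mul]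
    ring

/-- The functional equation at `s = -la`. -/
theorem bf_δ (h : BSd f b β Q) (la : ℚ) :
    (dvf f la).δ (bf la β) = algebraMap ℂ _ (b.eval (-(la : ℂ))) - ip N f * ev0 la Q := by
  have := congrArg (ev0 la) h.eq
  simp only [ev0_aeval, map_add, map_mul, map_sum, ev0_C, ev0_dpol, ev0_some, ev0_none, zero_mul,
    sum_const_zero, zero_add] at this
  rw [bf, dvf_sum, this, add_sub_cancel_left]

/-- The derivative of the functional equation at `s = -la`. -/
theorem bf1_δ (h : BSd f b β Q) (la : ℚ) :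
    (dvf f la).δ (bf1 la β) + bf la β (ip N f) / ip N f =
      algebraMap ℂ _ (b.derivative.eval (-(la : ℂ))) - ip N f * ev0 la (pderiv none Q) := by
  have h1 : pderiv none (Polynomial.aeval (X none : PX N (KK N)) b) =
      Polynomial.aeval (X none : PX N (KK N)) b.derivative := by
    have := ((pderiv none : Derivation (KK N) (PX N (KK N)) _).restrictScalars ℂ).map_aeval b
      (X none)
    rwa [Derivation.restrictScalars_apply, Derivation.restrictScalars_apply, pderiv_X_self,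
      smul_eq_mul, mul_one] at this
  have h2 : ∀ i, pderiv none (X (some i) : PX N (KK N)) = 0 := fun i => pderiv_X_of_ne (by simp)
  have := congrArg (fun P => ev0 la (pderiv none P)) h.eq
  simp only [h1, h2, ev0_aeval, map_add, map_mul, map_sum, ev0_C, ev0_dpol, ev0_some, ev0_none,
    zero_mul, sum_const_zero, zero_add, Derivation.leibniz, pderiv_C, smul_eq_mul, mul_zero,
    add_zero, pderiv_dpol, pderiv_X_self, mul_one] at this
  rw [bf1, dvf_sum, this, add_sub_cancel_left, bf, sum_ap, sum_div, ← sum_add_distrib]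
  refine sum_congr rfl fun l _ => ?_
  rw [Derivation.smul_apply, smul_eq_mul]
  ring

theorem BSd.poles (h : BSd f b β Q) (la : ℚ) : ∃ u : ℕ, (∀ l, ip N f ^ u * bf la β (x0 N l) ∈
    (ip N).range) ∧ ∀ l, ip N f ^ u * bf1 la β (x0 N l) ∈ (ip N).range := by
  obtain ⟨u, hu⟩ := h.pol
  exact ⟨u, fun l => by rw [bf, sum_x0]; exact ev0_mem (hu l),
    fun l => by rw [bf1, sum_x0]; exact ev0_mem (pderiv_mem (hu l) none)⟩

theorem BSd.Q0 (h : BSd f b β Q) (la : ℚ) : ev0 la Q ∈ (ip N).range := by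
  rw [← one_mul (ev0 la _)]
  exact ev0_mem fun e => by rw [one_mul]; exact h.reg e

theorem BSd.Q1 (h : BSd f b β Q) (la : ℚ) : ev0 la (pderiv none Q) ∈ (ip N).range := by
  rw [← one_mul (ev0 la _)]
  exact ev0_mem (pderiv_mem (fun e => by rw [one_mul]; exact h.reg e) none)

/-- The primitive and its derivative have poles on the boundary only. -/
theorem cht_pole (h : M.OK f) (a : M.ι) {v : VF (KK N)} {u : ℕ}
    (hv : ∀ l, ip N f ^ u * v (x0 N l) ∈ (ip N).range) :
    ∃ c : Fin N → ℤ, (∀ i ∉ ls M a, c i = 0) ∧ (∀ i, c i ≤ 0) ∧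
      (∀ v', (∀ l, ip N f ^ u * v' (x0 N l) ∈ (ip N).range) →
        v' ∈ (cht h a).G (M.S.A a) (ls M a) c) ∧ v ∈ (cht h a).G (M.S.A a) (ls M a) c := by
  obtain ⟨U, -, h2, h3, e⟩ := cht_f h a
  obtain ⟨U', -, h2', h3', e'⟩ := cht_jac h a
  have key : ∀ v' : VF (KK N), (∀ l, ip N f ^ u * v' (x0 N l) ∈ (ip N).range) → _ := fun v' hv' =>
    (co N).pole_G (cht h a) (cht_st h a) (co_mem h a) (s := ls M a) h2 h3 h2' h3' e e'
      (v := v') (u := u) fun l => by
        obtain ⟨p, hp⟩ := hv' l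
        exact hp ▸ h.pol a p
  refine ⟨_, fun i hi => by simp [lf_none hi, hi], fun i => ?_, key, key v hv⟩
  have h4 : ∀ c : M.J → ℕ, 0 ≤ lf M a (fun j => (c j : ℤ)) i := fun c =>
    sum_nonneg fun j _ => by split_ifs <;> simp
  have := h4 M.a
  have := h4 M.k
  refine neg_nonpos.2 (add_nonneg (add_nonneg (mul_nonneg (Int.natCast_nonneg u) (h4 M.a))
    (h4 M.k)) ?_)
  split_ifs <;> simp

end Pool.Agent.MP_ee8c61_ag.N3
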