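import Pool.Agent.MP_ee8c61_ag.M3RESID.RAV
import Pool.Agent.MP_ee8c61_ag.N3RESID.Eqn

/-!
The residue field of a divisor of a model over a base.
-/

namespace Pool.Agent.MP_ee8c61_ag.N3

open M3 M3RESID Finset

set_option linter.unusedSectionVars false

variable [Base]

noncomputable section

variable {n : ℕ} {f : Po (n + 1)} {M : Mod (n + 1)} {k : Type} [Field k] [Algebra ℂ k]
  {P : Pl (KK (n + 1)) k} {b : M.ι} {j : M.J} {i : Fin (n + 1)}

theorem cht_lz (h : M.OK f) (hl : M.S.lab b j = some i) (hj : (M.η b j)⁻¹ ∉ M.S.A b) :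
    Lz (M.S.A b) (oA (M.v j)) :=
  lz_oA (cht_dat h hl hj).adp.vz (cht_frac h b) (cht_dat h hl hj).le (cht_dat h hl hj).div

/-- The coordinates of a chart restrict to coordinates of the residue field of a divisor. -/
theorem exists_rch (h : M.OK f) (hl : M.S.lab b j = some i) (hj : (M.η b j)⁻¹ ∉ M.S.A b)
    (hP : P.o = M.v j) : ∃ C' : Co k n, P.RsC (cht h b) i C' := by
  have hd := cht_dat h hl hj
  have hz := cht_lz h hl hj
  rw [← hP] at hd hz
  refine Pl.exists_RsC hd.adp fun w hw => Derivation.ext fun y => ?_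
  have key := chart_der h (P.hom _ hd.le) w fun l => by
    refine Fin.succAboveCases i ?_ hw l
    exact (congrArg w (P.π_F1 (Or.inr hd.adp.vz.ge))).trans (map_zero w)
  obtain ⟨s, hs, t, ht, -, rfl⟩ := Pl.frac hz y
  have h1 : w (P.π s) = 0 := key ⟨s, hs⟩
  have h2 : w (P.π t) = 0 := key ⟨t, ht⟩
  simp [Derivation.leibniz_div, h1, h2]

theorem kf_fg (h : M.OK f) (hP : P.o = M.v j) : (⊤ : IntermediateField ℂ k).FG := by
  obtain ⟨b, hb⟩ := h.ne j
  obtain ⟨i, hi⟩ := lab_of hb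
  exact Pl.fg (hP ▸ cht_lz h hi hb) (chart_fg h b)

/-- Every field on the residue field of a divisor lifts. -/
theorem kf_lift (h : M.OK f) (hP : P.o = M.v j) (w : VF k) : ∃ v, P.Rs v w := by
  obtain ⟨b, hb⟩ := h.ne j
  obtain ⟨i, hi⟩ := lab_of hb
  obtain ⟨C', hC⟩ := exists_rch h hi hb hP
  exact hC.lift (hP ▸ (cht_dat h hi hb).adp) w

theorem v_f (h : M.OK f) (j : M.J) : (M.v j).v (ip _ f) = M.a j := by
  obtain ⟨b, hb⟩ := h.ne j
  obtain ⟨i, hi⟩ := lab_of hb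
  have hd := cht_dat h hi hb
  obtain ⟨U, h1, h2, h3, e⟩ := cht_f h b
  have h4 := (hd.le _ h1).resolve_left h3
  have h5 := (hd.le _ h2).resolve_left (inv_ne_zero h3)
  rw [DV.inv] at h5
  rw [e, DV.mul _ _ _ h3 (Co.mon_ne _ _), hd.adp.v_mon, lf_some hi, Mod.aa]
  omega

theorem pol_F (h : M.OK f) (j : M.J) {g : KK (n + 1)} (hg : g ∈ (ip (n + 1)).range) :
    g ∈ (M.v j).F 0 := by
  obtain ⟨b, hb⟩ := h.ne j
  obtain ⟨p, rfl⟩ := hg
  exact (h.dv b j hb).1 _ (h.pol b p)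

variable {la : ℚ} {B : Polynomial ℂ} {β : Fin (n + 1) → H59.PX (n + 1) (KK (n + 1))}
  {Q : H59.PX (n + 1) (KK (n + 1))}

theorem fQ_F (h : M.OK f) (H : BSd f B β Q) (la : ℚ) (j : M.J) :
    ip _ f * ev0 la Q ∈ (M.v j).F 1 :=
  F_mul0' (Or.inr (by have := h.pos j; rw [v_f h]; omega)) (pol_F h j (BSd.Q0 H la))

theorem exp_v0 (h : M.OK f) (h0 : M.ex la j = 0) : Exp (dvf f la) (M.v j) 0 := by
  simpa [h0] using exp_v h la j

/-- The residue of the primitive is a primitive. -/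
theorem res_prim (h : M.OK f) (H : BSd f B β Q) (hP : P.o = M.v j) {e : Dv k} {v : VF k}
    (he : P.RsD (dvf f la) e) (hv : P.Res (dvf f la) (bf la β) v) :
    e.δ v = algebraMap ℂ k (B.eval (-(la : ℂ))) := by
  rw [hv.δ he, bf_δ H, Pl.π_congr (cst_F _ _) (by
    rw [sub_sub_cancel_left]
    exact neg_mem (hP ▸ fQ_F h H la j)), P.π_cst]

/-- The residue of the volume form is rationally twisted. -/
theorem exists_rat (h : M.OK f) (h0 : M.ex la j = 0) (hP : P.o = M.v j) :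
    ∃ (C' : Co k n) (ψ : k) (e : Dv k), ψ ≠ 0 ∧ P.RsD (dvf f la) e ∧
      ∀ Y, e.δ Y = C'.dv.δ Y + Y ψ / (la.den * ψ) := by
  obtain ⟨b, hb⟩ := h.ne j
  obtain ⟨i, hi⟩ := lab_of hb
  obtain ⟨C', hC⟩ := exists_rch h hi hb hP
  have hd := cht_dat h hi hb
  have vf := v_f h j
  rw [← hP] at hd vf
  obtain ⟨C, eC⟩ : ∃ C, C = cht h b := ⟨_, rfl⟩
  have vj : P.o.v ((co _).jac C) = M.k j := by
    obtain ⟨U, h1, h2, h3, e⟩ := cht_jac h b
    have h4 := (hd.le _ h1).resolve_left h3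
    have h5 := (hd.le _ h2).resolve_left (inv_ne_zero h3)
    rw [DV.inv] at h5
    rw [eC, e, DV.mul _ _ _ h3 (Co.mon_ne _ _), hd.adp.v_mon, lf_some hi, Mod.kk]
    omega
  rw [← eC] at hC hd
  have z0 := C.ne i
  have un : ∀ {g : KK (n + 1)}, g ≠ 0 → g * C.z i ^ (-P.o.v g) ≠ 0 ∧
      P.o.v (g * C.z i ^ (-P.o.v g)) = 0 := fun hg =>
    ⟨mul_ne_zero hg (zpow_ne_zero _ z0), by
      rw [DV.mul _ _ _ hg (zpow_ne_zero _ z0), v_zpow _ z0, hd.adp.vz]
      ring⟩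
  have j0 := (co (n + 1)).jac_ne C
  obtain ⟨j1, j2⟩ := un j0
  obtain ⟨f1, f2⟩ := un (f_ne h)
  have E1 := hd.adp.exp_dv.tw z0 (-1)
  have R := ((hC.dv hd.adp).tw E1.reg j1 j2 1).tw (E1.tw j1 1).reg f1 f2 (-(la : ℂ))
  have e0 : algebraMap ℂ (KK (n + 1)) la * (M.a j : KK (n + 1)) = M.k j + 1 := by
    have : (la : ℂ) * M.a j = M.k j + 1 := by
      have := sub_eq_zero.1 h0
      exact_mod_cast this.symm
    simpa using congrArg (algebraMap ℂ (KK (n + 1))) this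
  have e1 : dvf f la = ((C.dv.tw (C.z i) (-1)).tw
      ((co _).jac C * C.z i ^ (-P.o.v ((co _).jac C))) 1).tw
      (ip _ f * C.z i ^ (-P.o.v (ip _ f))) (-(la : ℂ)) := Dv.ext' fun v => by
    rw [dvf, Co.dv_jac _ C]
    simp only [Dv.tw_δ]
    rw [dlog_mul v j0 (zpow_ne_zero (-P.o.v ((co _).jac C)) z0),
      dlog_mul v (f_ne h) (zpow_ne_zero (-P.o.v (ip _ f)) z0), dlog_zpow v z0, dlog_zpow v z0,
      vj, vf]
    simp only [map_neg, map_one, Int.cast_neg, Int.cast_natCast]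
    linear_combination (-(v (C.z i) / C.z i)) * e0
  rw [← e1] at R
  have p1 := Pl.π_ne j1 j2
  have p2 := Pl.π_ne f1 f2
  have q1 := zpow_ne_zero (la.den : ℤ) p1
  have q2 := zpow_ne_zero (-la.num) p2
  refine ⟨C', _, _, mul_ne_zero q1 q2, R, fun Y => ?_⟩
  have : CharZero k := charZero_of_injective_algebraMap (algebraMap ℂ k).injective
  have d0 : (la.den : k) ≠ 0 := Nat.cast_ne_zero.2 la.den_nz
  rw [mul_comm (la.den : k), ← div_div, dlog_mul Y q1 q2, dlog_zpow Y p1, dlog_zpow Y p2]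
  simp only [Dv.tw_δ, map_neg, map_one, map_ratCast, Int.cast_neg, Int.cast_natCast]
  rw [Rat.cast_def]
  field_simp
  ring

end

end Pool.Agent.MP_ee8c61_ag.N3
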