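import Pool.Agent.MP_ee8c61_ag.M3RESID.CC2
import Pool.Agent.MP_ee8c61_ag.N3.Defs
import Pool.Agent.MP_ee8c61_ag.N3L.Pol

/-!
Local primitives in the lattice of an ample divisor on a model over a base.
-/

namespace Pool.Agent.MP_ee8c61_ag.N3

open H59 hiding pd
open M3 M3RESID M3L Finset MvPolynomial
open M3B1 (pd)

set_option linter.unusedSectionVars false

variable [Base]

namespace CCB

open M3RESID.CCA hiding dvf_pd ev0_nab R_eq

variable {N : ℕ} (la : ℚ)

theorem dvf_pd (f : Po N) (l : Fin N) :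
    (dvf f la).δ (pd N l) = -(la : KK N) * ((ip N f)⁻¹ * pd N l (ip N f)) := by
  rw [dvf, Dv.tw_δ, dv_pd, zero_add, map_neg, map_ratCast, div_eq_inv_mul]

theorem ev0_nab (f : Po N) (l : Fin N) (P : PX N (KK N)) :
    ev0 la (dpol _ (pd N l) P + (∑ i, X (some i) * C (pd N l (xx N i)) +
      X none * C ((ip N f)⁻¹ * pd N l (ip N f))) * P) = Nb (dvf f la) (M3.co N).D l (ev0 la P) := by
  rw [Nb, Dv.smul, show (M3.co N).D l = pd N l from rfl, dvf_pd]
  simp only [map_add, map_mul, map_sum, ev0_dpol, ev0_some, ev0_none, ev0_C, zero_mul,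
    sum_const_zero, zero_add]
  ring

end CCB

open M3RESID.CCA hiding dvf_pd ev0_nab R_eq in
open H95G.RESA CCB in
/-- Local primitives at `s = -la`, `ξ = 0`. -/
theorem cc2 {f : Po 3} {M : Mod 3} (h : M.OK f) {b : Polynomial ℂ} {β : Fin 3 → PX 3 (KK 3)}
    {Q : PX 3 (KK 3)} (hb : BSd f b β Q) (la : ℚ) {w : M.J → ℤ} {κ : Type} [Fintype κ]
    {bb : κ → M.ι} {t ρ : κ → KK 3} (hA : M.AC w bb t ρ) {μ : ℕ} (hμ : 0 < μ)
    (h1 : ∀ j, Sys.cl w μ j ≤ M.k j + 1) :
    ∃ (g : κ → Fin 3 → KK 3) (τ : κ → κ → KK 3),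
      (∀ i l, (bf la β - crl (dvf f la) (M3.co 3).D (g i)) (M.S.z (bb i) l) / M.S.un (bb i) l *
        M.mon (bb i) (M.kk + 1 - Sys.cl w μ) ∈ (LS hA).A i) ∧
      ∀ i j l, pr (M3.co 3) (g i - g j - fun m => Nb (dvf f la) (M3.co 3).D m (τ i j))
        (M.S.dv (bb i) l) * M.mon (bb i) (-Sys.cl w μ) ∈ (LS hA).A i ⊔ (LS hA).A j := by
  have := nonempty hA
  have hr : (LS hA).r = x0 3 := h.r
  have hR : ∀ l, (LS hA).R l = pd 3 l := R_eq h
  have rg : ∀ c, ∀ y ∈ (ip 3).range, y ∈ (LS hA).A c := by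
    rintro c _ ⟨p, rfl⟩
    exact LS_pol h hA c p
  obtain ⟨u, hu⟩ := hb.pol
  have hM : H95G.MainK (LS hA) (xx 3) (Units.mk0 _ (f_ne h)) M.a M.k b :=
    LS_mainK h hA (u := u) (fun l e => by obtain ⟨p, hp⟩ := hu l e; exact hp ▸ p.2)
      (fun e => by obtain ⟨p, hp⟩ := hb.reg e; exact hp ▸ p.2) hb.eq
  have hP : (LS hA).Pol (xx 3) w (ru hA) := LS_Pol h hA _ (fun l => ⟨xp 3 l, rfl⟩) fun l => ⟨l, rfl⟩
  have hc := cl_om hM
  have c0 := Classical.arbitrary κ
  have hx : ∀ l, xx 3 l ∈ om (LS hA) := fun l => hc.A c0 (hP.x_mem c0 l)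
  have hf := mem_of_ord hc (hM.f_ord c0)
  have hI := mainIn hM hc hx hf
  have hβ : ∀ l e, coeff e (β l) ∈ om (LS hA) := fun l e =>
    cancel (pow_mem hf u) (hc.A c0 (rg c0 _ (hu l e)))
  choose β' hβ' using fun l => exists_lift (β l) (hβ l)
  have nb : ∀ l P, map ((om (LS hA)).val : om (LS hA) →+* KK 3) (nab ((sys hc).px 3).R
      ((sys hc).th (fun l => ⟨xx 3 l, hx l⟩) (un _ hf)) l P) =
      dpol _ (pd 3 l) (map ((om (LS hA)).val : om (LS hA) →+* KK 3) P) +
      (∑ i, X (some i) * C (pd 3 l (xx 3 i)) + X none * C ((ip 3 f)⁻¹ * pd 3 l (ip 3 f))) *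
        map ((om (LS hA)).val : om (LS hA) →+* KK 3) P := fun l P => by
    rw [nab, map_add, map_mul, map_th, ← hR, ← map_dpol _ (hc.R l)]
    simp only [Sys.th, Units.val_mk0, Units.val_inv_eq_inv_val]
    rfl
  obtain ⟨g, τ, e1, e2⟩ := cc1 (sys hc) (fun l => ⟨xx 3 l, hx l⟩) (un _ hf) M.a M.k w _ μ u β'
    hI.good hI.r_mem hI.f_ord hI.det (fun c l e => by
      have := rg c _ (hu l e)
      rw [← hβ' l, coeff_map] at this
      exact this) (fun c e => by
      have e3 := congrArg (coeff e) (sub_eq_of_eq_add' hb.eq)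
      simp only [← hβ', ← nb] at e3
      rw [← map_sum, coeff_map] at e3
      change (om (LS hA)).val _ ∈ (LS hA).A c
      refine (show _ = _ from e3) ▸ ?_
      have m1 : (X none : PX 3 (KK 3)) ∈ spol _ ((LS hA).A c) := H95G.BSA.X_mem _ _
      exact (sub_mem (Algebra.adjoin_le (Set.singleton_subset_iff.2 m1)
        (Polynomial.aeval_mem_adjoin_singleton _ _)) (mul_mem (C_mem_spol (LS_pol h hA c f))
        fun e => rg c _ (hb.reg e)) : _ ∈ spol _ ((LS hA).A c)) e)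
    (pol_sys hc hP hx) hμ h1 h.pos
  let φ : PX 3 (om (LS hA)) →+* KK 3 :=
    (ev0 la).comp (map ((om (LS hA)).val : om (LS hA) →+* KK 3))
  have φn : ∀ l P, φ (nab ((sys hc).px 3).R ((sys hc).th (fun l => ⟨xx 3 l, hx l⟩) (un _ hf)) l P) =
      Nb (dvf f la) (M3.co 3).D l (φ P) := fun l P => by
    rw [RingHom.comp_apply, nb, ev0_nab]
    rfl
  refine ⟨fun i l => φ (g i l), fun i j => φ (τ i j), fun i l => ?_, fun i j l => ?_⟩
  · have := ev0_sum_mem la (A := (LS hA).A i) (fun m => map ((om (LS hA)).val : _ →+* KK 3)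
      ((β' - curl (nab ((sys hc).px 3).R ((sys hc).th (fun l => ⟨xx 3 l, hx l⟩) (un _ hf)))
        (g i)) m)) (fun m => (LS hA).e i l m * M.mon (bb i) (M.kk + 1 - Sys.cl w μ)) fun e => by
      have e3 : (om (LS hA)).val _ ∈ (LS hA).A i := e1 i l e
      simp only [dotProduct, map_mul, map_sum, val_e, val_mon] at e3
      simp only [coeff_map, ← mul_assoc, ← sum_mul]
      exact e3
    rw [(M3.co 3).exp_apply, sum_div, sum_mul]
    refine mem_of_eq this (sum_congr rfl fun m _ => ?_)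
    have e4 : (bf la β - crl (dvf f la) (M3.co 3).D fun l => φ (g i l)) ((M3.co 3).z m) =
        φ ((β' - curl (nab ((sys hc).px 3).R ((sys hc).th (fun l => ⟨xx 3 l, hx l⟩) (un _ hf)))
        (g i)) m) := by
      rw [Derivation.sub_apply, crl_eq _ (M3.co 3).comm, Pi.sub_apply, map_sub, RingHom.comp_apply,
        hβ', ← bf_z, sum_ap]
      simp only [Derivation.smul_apply, (M3.co 3).dual, smul_eq_mul, mul_ite, mul_one, mul_zero,
        sum_ite_eq', mem_univ, if_true]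
      exact congrArg₂ _ rfl (map_curl φ φn _ m).symm
    rw [e4, Sys.e, hR, Units.val_inv_eq_inv_val, div_eq_inv_mul]
    change φ _ * ((M.S.un (bb i) l : KK 3)⁻¹ * (M3.co 3).D m (M.S.z (bb i) l) * _) = _
    ring
  · have := ev0_sum_mem la (A := (LS hA).A i ⊔ (LS hA).A j)
      (fun m => map ((om (LS hA)).val : _ →+* KK 3) (g i m - g j m - nab ((sys hc).px 3).R
        ((sys hc).th (fun l => ⟨xx 3 l, hx l⟩) (un _ hf)) m (τ i j)))
      (fun m => (LS hA).v i l m * M.mon (bb i) (-Sys.cl w μ)) fun e => by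
      have e3 : (om (LS hA)).val _ ∈ (LS hA).A i ⊔ (LS hA).A j :=
        (sup_le (fun y hy => (le_sup_left : (LS hA).A i ≤ _) hy)
          fun y hy => (le_sup_right : (LS hA).A j ≤ _) hy : (sys hc).A i ⊔ (sys hc).A j ≤
          ((LS hA).A i ⊔ (LS hA).A j).comap (om (LS hA)).val) (e2 i j l e)
      simp only [dotProduct, map_mul, map_sum, val_v, val_mon, mul_comm ((LS hA).v i l _)] at e3
      simp only [coeff_map, ← mul_assoc, ← sum_mul]
      exact e3
    rw [pr, sum_mul]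
    refine mem_of_eq this (sum_congr rfl fun m _ => ?_)
    change φ _ * _ = _
    rw [map_sub, map_sub, φn, Sys.v, hr]
    change _ * ((M.S.un (bb i) l : KK 3) * M.S.D (bb i) l (x0 3 m) * _) =
      (M.S.un (bb i) l : KK 3) * M.S.D (bb i) l (x0 3 m) * (_ - _ - _) * _
    ring

end Pool.Agent.MP_ee8c61_ag.N3
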